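import Mathlib
import Pool.Agent.H.MP_77bbd4_lc.A

set_option autoImplicit false

open Cardinal Set Ordinal

namespace Pool.Agent.Results.MP_77bbd4_lc.Undetermined

/-- open dense subsets of a poset -/
def OpenDense {P : Type} [PartialOrder P] (D : Set P) : Prop :=
  IsLowerSet D ∧ ∀ p, ∃ q, q ≤ p ∧ q ∈ D

/-- strong distributivity -/
def StronglyDistributive (P : Type) [PartialOrder P] (κ : Cardinal.{0}) : Prop :=
  ∀ D : Ordinal.{0} → Set P, (∀ α, α < κ.ord → OpenDense (D α)) → ∀ p : P,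
    ∃ s : Ordinal.{0} → P, s 0 ≤ p ∧ (∀ α, α < κ.ord → s α ∈ D α) ∧
      ∀ α β, α < β → β < κ.ord → s β ≤ s α

/-- COM moves at even and at limit ordinals -/
def ComTurn (α : Ordinal.{0}) : Prop := 2 ∣ α ∨ Order.IsSuccLimit α

/-- COM has a winning strategy in the completeness game of length `δ` -/
def ComWins (P : Type) [PartialOrder P] [OrderTop P] (δ : Ordinal.{0}) : Prop :=
  ∃ σ : (α : Ordinal.{0}) → (Iio α → P) → P, (∀ h, σ 0 h = ⊤) ∧
    ∀ α, α < δ → ComTurn α → ∀ p : Ordinal.{0} → P,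
      (∀ β, β < α → ∀ γ, γ < β → p β ≤ p γ) →
      (∀ β, β < α → ComTurn β → p β = σ β (fun γ => p γ.1)) →
      ∀ β, β < α → σ α (fun γ => p γ.1) ≤ p β

open Pool.Agent.H.MP_77bbd4_lc Pool.Agent.Lib.helper21.NS

theorem not_turn (m : ℕ) : ¬ ComTurn ((2 * m + 1 : ℕ) : Ordinal.{0}) := by
  rintro (h | h)
  · rw [Ordinal.dvd_iff_mod_eq_zero] at h
    have h2 := Ordinal.natCast_mod (2 * m + 1) 2
    rw [show ((2 : ℕ) : Ordinal.{0}) = 2 from rfl, h, show (2 * m + 1) % 2 = 1 by omega] at h2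
    simp at h2
  · exact Order.not_isSuccLimit_natCast _ h

theorem loses {X : Type} [LinearOrder X] (R : Reg X) {κ : Cardinal.{0}} (hκ : ℵ₀ ≤ κ)
    (hX : κ < #X) (har : ∀ a : X, #{t : Set X // t ⊆ Iic a ∧ #t ≤ κ} ^ ℵ₀ < #X)
    {T : Set X} (hT : ¬ J T) (hE : T ⊆ E X) {δ : Ordinal.{0}} (hδ : ω < δ) :
    ¬ ComWins (P κ T) δ := by
  classical
  rintro ⟨σ, -, hσ⟩
  let up : (ℕ → Set X) → Ordinal.{0} → P κ T := fun h γ =>
    if H : ∃ m : ℕ, γ = m ∧ Cond κ T (h m) then ⟨h H.choose, H.choose_spec.2⟩ else ⊤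
  have hF : ∀ a : X, ∃ b, a < b ∧ ∀ r : ℕ × (ℕ → {t : Set X // t ⊆ Iic a ∧ #t ≤ κ}),
      ∀ y ∈ (σ r.1 (fun γ => up (fun m => (r.2 m).1) γ.1)).1, y < b := by
    intro a
    refine bound R hX ?_ _ (fun r => Subtype.property (p := Cond κ T) _ |>.1) a
    rw [mk_prod, mk_arrow]; simp only [Cardinal.lift_id, mk_nat]
    exact mul_lt_of_lt R.unc.le R.unc (har a)
  choose F hF0 hF using hF
  obtain ⟨x, hx, hcl⟩ := closure_pt hT F
  obtain ⟨a, ha1, ha2⟩ := hE hx
  let Good : (α : Ordinal.{0}) → (Iio α → P κ T) → P κ T → Prop := fun α h t =>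
    (∀ γ, t ≤ h γ) ∧ (∃ b, b < x ∧ t.1 ⊆ Iic b) ∧
      ∀ m : ℕ, α = ((2 * m + 1 : ℕ) : Ordinal) → ∃ z ∈ t.1, a m < z
  let G : ∀ α : Ordinal.{0}, (∀ γ, γ < α → P κ T) → P κ T := fun α g =>
    if ComTurn α then σ α (fun γ => g γ.1 γ.2) else
      if H : ∃ t, Good α (fun γ => g γ.1 γ.2) t then H.choose else ⊤
  let p : Ordinal.{0} → P κ T := (wellFounded_lt (α := Ordinal.{0})).fix G
  have hp : ∀ α, p α = G α (fun γ _ => p γ) := fun α =>
    (wellFounded_lt (α := Ordinal.{0})).fix_eq G α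
  have hp1 : ∀ α, ComTurn α → p α = σ α (fun γ => p γ.1) := fun α h => by
    rw [hp α]; simp only [G, if_pos h]
  have hp2 : ∀ α, ¬ ComTurn α → (∃ t, Good α (fun γ => p γ.1) t) →
      Good α (fun γ => p γ.1) (p α) := fun α h H => by
    rw [hp α]; simp only [G, if_neg h, dif_pos H]; exact H.choose_spec
  have hnat : ∀ (n : ℕ) (γ : Ordinal.{0}), γ < n → ∃ m : ℕ, m < n ∧ γ = m := fun n γ h => by
    obtain ⟨m, rfl⟩ := lt_omega0.1 (h.trans (natCast_lt_omega0 n))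
    exact ⟨m, by exact_mod_cast h, rfl⟩
  have key : ∀ n : ℕ, (∀ γ : Ordinal.{0}, γ < n → p n ≤ p γ) ∧ (∃ b, b < x ∧ (p n).1 ⊆ Iic b) ∧
      ∀ m, n = 2 * m + 1 → ∃ z ∈ (p n).1, a m < z := by
    intro n
    induction n using Nat.strong_induction_on with
    | _ n ih =>
    have hb : ∀ k, k ≤ n → ∃ b, b < x ∧ ∀ m, m < k → (p m).1 ⊆ Iic b := by
      intro k hk
      induction k with
      | zero => exact ⟨a 0, ha1 0, fun m hm => absurd hm (Nat.not_lt_zero _)⟩
      | succ k ihk =>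
        obtain ⟨b, hb, h1⟩ := ihk (by omega)
        obtain ⟨b', hb', h2⟩ := (ih k (by omega)).2.1
        refine ⟨max b b', max_lt hb hb', fun m hm => ?_⟩
        rcases Nat.lt_succ_iff_lt_or_eq.1 hm with hm | rfl
        · exact (h1 m hm).trans (Iic_subset_Iic.2 (le_max_left _ _))
        · exact h2.trans (Iic_subset_Iic.2 (le_max_right _ _))
    obtain ⟨b, hbx, hb⟩ := hb n le_rfl
    by_cases ht : ComTurn n
    · refine ⟨?_, ⟨F b, hcl b hbx, ?_⟩, fun m hm => absurd (hm ▸ ht) (not_turn m)⟩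
      · rw [hp1 n ht]
        refine hσ n ((natCast_lt_omega0 n).trans hδ) ht p (fun β hβ => ?_) (fun β _ => hp1 β)
        obtain ⟨m, hm, rfl⟩ := hnat n β hβ
        exact (ih m hm).1
      · let r : ℕ → {t : Set X // t ⊆ Iic b ∧ #t ≤ κ} := fun m =>
          if h : m < n then ⟨(p m).1, hb m h, (p m).2.1⟩ else ⟨∅, by simp⟩
        have : (fun γ : Iio (n : Ordinal.{0}) => p γ.1) =
            fun γ => up (fun m => (r m).1) γ.1 := by
          funext γ
          obtain ⟨m, hm, hγ⟩ := hnat n γ.1 γ.2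
          have H : ∃ k : ℕ, γ.1 = k ∧ Cond κ T ((fun m => (r m).1) k) :=
            ⟨m, hγ, by simp only [r, dif_pos hm]; exact (p m).2⟩
          have hk : H.choose = m := by
            exact_mod_cast H.choose_spec.1.symm.trans hγ
          refine Eq.trans ?_ (dif_pos H).symm
          apply Subtype.ext
          show (p γ.1).1 = (r H.choose).1
          rw [hk, hγ]
          simp only [r, dif_pos hm]
        rw [hp1 n ht, this]
        exact fun y hy => (hF b (n, r) y hy).le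
    · have hn : n ≠ 0 := by
        rintro rfl
        exact ht (Or.inl (by simp))
      obtain ⟨k, rfl⟩ := Nat.exists_eq_succ_of_ne_zero hn
      have hz := hcl _ (max_lt hbx (ha1 (k / 2)))
      have hz0 := hF0 (max b (a (k / 2)))
      have hg := hp2 _ ht ⟨⟨insert (F (max b (a (k / 2)))) (p k).1, (p k).2.insert hκ _⟩,
        fun γ => ?_, ⟨_, hz, ?_⟩, fun m hm => ⟨_, mem_insert _ _, ?_⟩⟩
      · exact ⟨fun γ hγ => hg.1 ⟨γ, hγ⟩, hg.2.1, fun m hm => hg.2.2 m (by rw [hm])⟩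
      · have h1 : EE (p k).1 (insert (F (max b (a (k / 2)))) (p k).1) :=
          EE_insert fun y hy => ((hb k (by omega) hy).trans (le_max_left _ _)).trans_lt hz0
        obtain ⟨m, hm, hγ⟩ := hnat _ γ.1 γ.2
        show EE (p γ.1).1 (insert (F (max b (a (k / 2)))) (p k).1)
        rcases Nat.lt_succ_iff_lt_or_eq.1 hm with hm | rfl
        · exact EE.trans ((ih k (by omega)).1 γ.1 (by rw [hγ]; exact_mod_cast hm)) h1
        · rw [hγ]; exact h1
      · rintro y (rfl | hy)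
        · exact le_rfl
        · exact ((hb k (by omega) hy).trans (le_max_left _ _)).trans hz0.le
      · have : k + 1 = 2 * m + 1 := by exact_mod_cast hm
        rw [show m = k / 2 by omega]
        exact (le_max_right _ _).trans_lt hz0
  have hl := hσ ω hδ (Or.inr isSuccLimit_omega0) p (fun β hβ => by
    obtain ⟨m, rfl⟩ := lt_omega0.1 hβ
    exact (key m).1) (fun β _ => hp1 β)
  refine (σ ω (fun γ => p γ.1)).2.2 x hx ⟨⟨_, ha1 0⟩, fun y hy => ?_⟩
  obtain ⟨m, hm⟩ := ha2 y hy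
  obtain ⟨-, ⟨b, hb, h1⟩, h2⟩ := key (2 * m + 1)
  obtain ⟨z, hz, h3⟩ := h2 m rfl
  exact ⟨z, (hl _ (natCast_lt_omega0 _)).1 hz, hm.trans_lt h3, (h1 hz).trans_lt hb⟩

theorem result (κ : Cardinal.{0}) (hκ : ℵ₀ < κ) :
    ∃ (P : Type) (_ : PartialOrder P) (_ : OrderTop P),
      StronglyDistributive P κ ∧ ¬ ComWins P κ.ord := by
  classical
  have h2 : κ < 2 ^ κ := cantor κ
  have h3 : ℵ₀ ≤ 2 ^ κ := hκ.le.trans h2.le
  have hlt := Order.lt_succ ((2 : Cardinal.{0}) ^ κ)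
  have R := reg_of_isRegular (isRegular_succ h3) (h3.trans_lt hlt)
  set X := (Order.succ ((2 : Cardinal.{0}) ^ κ)).ord.ToType
  have e : #X = Order.succ ((2 : Cardinal.{0}) ^ κ) := mk_ord_toType _
  have har : ∀ a : X, #{t : Set X // t ⊆ Iic a ∧ #t ≤ κ} ≤ 2 ^ κ := fun a => by
    refine (mk_bounded_subset_le _ _).trans ?_
    have h1 : max #(Iic a) ℵ₀ ≤ 2 ^ κ := max_le (Order.lt_succ_iff.1 ((R.small a).trans_eq e)) h3
    refine (power_le_power_right h1).trans ?_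
    rw [← power_mul, mul_eq_self hκ.le]
  have hX : κ < #X := (h2.trans hlt).trans_eq e.symm
  obtain ⟨g, hg⟩ := splitE R
  obtain ⟨I, hI, hI2⟩ := le_mk_iff_exists_subset.1 ((hlt.trans_eq e.symm).le.trans hg)
  obtain ⟨i, hi⟩ := distrib R hκ.le hX (fun a => (har a).trans_lt (hlt.trans_eq e.symm))
    (K := κ.ord.ToType) (mk_ord_toType κ).le (I := I) (h2.trans_eq hI2.symm) (by rw [hI2, e]; exact hlt)
    (fun i => {x ∈ E X | g x = i.1}) (fun i j x h1 h2 => Subtype.ext (h1.2.symm.trans h2.2))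
  refine ⟨P κ {x ∈ E X | g x = i.1}, inferInstance, inferInstance, fun D hD p => ?_,
    loses R hκ.le hX (fun a => ?_) (hI i.2) (fun x hx => hx.1) (omega0_lt_ord.2 hκ)⟩
  · obtain ⟨s, h1, h2, h3⟩ := hi (fun k => D (ToType.mk.symm k).1)
      (fun k => (hD _ (ToType.mk.symm k).2).2) p
    have h0 : (0 : Ordinal.{0}) < κ.ord := omega0_pos.trans (omega0_lt_ord.2 hκ)
    refine ⟨fun α => if h : α < κ.ord then s (ToType.mk ⟨α, h⟩) else ⊤, ?_, fun α h => ?_,
      fun α β h h' => ?_⟩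
    · simp only [dif_pos h0]; exact h2 _
    · simp only [dif_pos h]; simpa using h1 (ToType.mk ⟨α, h⟩)
    · simp only [dif_pos h', dif_pos (h.trans h')]
      exact h3 _ _ (ToType.mk.lt_iff_lt.2 h)
  · refine (power_le_power_right (har a)).trans_lt ?_
    rw [← power_mul, mul_eq_left hκ.le hκ.le aleph0_pos.ne', e]
    exact hlt

end Pool.Agent.Results.MP_77bbd4_lc.Undetermined
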